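import Pool.Agent.L0h58.HM.Stm
import Pool.Agent.L0h37.HN.SEL

/-!
# Project HM (helper58), module SELB2
-/

set_option autoImplicit false
set_option linter.all false

namespace Pool.Agent.L0h37.HM

open Finset Pool.Agent.L0h32.LT Pool.Agent.L0h58.HN Pool.Agent.L0h58.HM Pool.Agent.L0h37.HN

theorem restr_iter {t n T : ℕ} {V : Type} (hn : 0 < n) (k : Fin t) (P : BP (t + n) V) (y : Inp n) :
    ((restr hn k P).step y)^[T] (restr hn k P).start =
      (P.step (Fin.addCases (motive := fun _ => Bool) (fun i => decide (i = k)) y))^[T] P.start := by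
  have : (restr hn k P).step y =
      P.step (Fin.addCases (motive := fun _ => Bool) (fun i => decide (i = k)) y) :=
    funext fun v => restr_step hn k P y v
  rw [this]
  rfl

open Classical in
theorem t_SELB2 : S_SELB2 := by
  intro t n T L δ ε F k hn h Ω _ p V _ P U hp0 hp1 hV a b hb h1 h2
  have e : ∀ y : Inp n, (∑ ω, if ((restr hn k (P ω)).step y)^[T] (restr hn k (P ω)).start ∈ U ω
        then p ω else 0) =
      ∑ ω, if ((P ω).step (Fin.addCases (motive := fun _ => Bool)
        (fun i => decide (i = k)) y))^[T] (P ω).start ∈ U ω then p ω else 0 := by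
    intro y
    refine Finset.sum_congr rfl fun ω _ => ?_
    rw [restr_iter]
  refine h Ω p V (fun ω => restr hn k (P ω)) U hp0 hp1 hV a b hb ?_ ?_
  · intro y hy
    rw [e]
    exact h1 _ (by rw [sel_restr]; exact hy)
  · intro y hy
    rw [e]
    exact h2 _ (by rw [sel_restr]; exact hy)

end Pool.Agent.L0h37.HM
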